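import Mathlib
import Pool.Agent.H630VC.Model
import Pool.Agent.W953.RD.Multi
import Pool.Agent.W953.RD.WH
import Pool.Agent.W953.TG.Defs

/-!
# Approximate vertex covers on windows of numbers of edges
-/

set_option autoImplicit false

open scoped Classical
open Finset

namespace Pool.Agent.W953.VC

open Pool.Agent.W953.NW Pool.Agent.W953.RD
open Pool.Agent (H540R2.Circuit H540R2.Node H540R2.Gate)
open H630VC (IsCover)
open Pool.Agent.W953.TG (absorb)

/-- the code of a graph: for every ordered pair of vertices, are they adjacent? -/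
noncomputable def code {N : ℕ} (G : SimpleGraph (Fin N)) : Fin (N * N) → Bool :=
  fun i => decide (G.Adj (finProdFinEquiv.symm i).1 (finProdFinEquiv.symm i).2)

/-- the number of ordered pairs of adjacent vertices, twice the number of edges -/
noncomputable def arcs {N : ℕ} (G : SimpleGraph (Fin N)) : ℕ :=
  (univ.filter fun e : Fin N × Fin N => G.Adj e.1 e.2).card

/-- the set of the vertices whose output is one -/
noncomputable def printed {N : ℕ} (D : H540R2.Circuit (N * N)) (o : Fin N → H540R2.Node (N * N))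
    (G : SimpleGraph (Fin N)) : Finset (Fin N) :=
  univ.filter fun v => (o v).eval (code G) (D.val (code G)) = true

/-- the circuit `D` with the outputs `o` prints a vertex cover of `G` of size at most `c` times the
least size -/
def Right {N : ℕ} (c : ℝ) (D : H540R2.Circuit (N * N)) (o : Fin N → H540R2.Node (N * N))
    (G : SimpleGraph (Fin N)) : Prop :=
  IsCover G (printed D o G) ∧ ∀ C, IsCover G C → ((printed D o G).card : ℝ) ≤ c * C.card

/-- the outputs are inputs, constants or gates of the circuit -/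
def Ok {N : ℕ} (D : H540R2.Circuit (N * N)) (o : Fin N → H540R2.Node (N * N)) : Prop :=
  ∀ v j, (o v).wires j ≠ 0 → j < D.size

/-- Circuits of polynomial size print `c`-approximate vertex covers. -/
def Easy (c : ℝ) : Prop := ∃ k : ℕ, ∀ N : ℕ, ∃ (D : H540R2.Circuit (N * N))
  (o : Fin N → H540R2.Node (N * N)), Ok D o ∧ D.size ≤ (N + 2) ^ k ∧ ∀ G, Right c D o G

/-- Circuits of polynomial size with at most `t N` NOT gates do this for the graphs with at least
`a` and less than `a + W N` ordered pairs of adjacent vertices, for all `a`. -/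
def EasyOn (c : ℝ) (t W : ℕ → ℕ) : Prop := ∃ k : ℕ, ∀ N a : ℕ, ∃ (D : H540R2.Circuit (N * N))
  (o : Fin N → H540R2.Node (N * N)), Ok D o ∧ D.nots ≤ t N ∧ D.size ≤ (N + 2) ^ k ∧
    ∀ G, a ≤ arcs G → arcs G < a + W N → Right c D o G

lemma wt_code {N : ℕ} (G : SimpleGraph (Fin N)) : wt (code G) = arcs G := by
  unfold wt arcs
  symm
  refine card_bij (fun e _ => finProdFinEquiv e) ?_ ?_ ?_
  · intro e he
    have h1 := (mem_filter.1 he).2
    refine mem_filter.2 ⟨mem_univ _, ?_⟩
    unfold code
    rw [decide_eq_true_iff, Equiv.symm_apply_apply]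
    exact h1
  · intro a _ b _ h
    exact finProdFinEquiv.injective h
  · intro i hi
    have h1 := (mem_filter.1 hi).2
    unfold code at h1
    rw [decide_eq_true_iff] at h1
    exact ⟨finProdFinEquiv.symm i, mem_filter.2 ⟨mem_univ _, h1⟩, Equiv.apply_symm_apply _ _⟩

lemma code_true {N : ℕ} (G : SimpleGraph (Fin N)) (i : Fin (N * N)) :
    code G i = true ↔ G.Adj (finProdFinEquiv.symm i).1 (finProdFinEquiv.symm i).2 := by
  unfold code
  exact decide_eq_true_iff

lemma arcs_le {N : ℕ} (G : SimpleGraph (Fin N)) (S : Finset (Fin N × Fin N))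
    (h : ∀ u v, G.Adj u v → (u, v) ∈ S) : arcs G ≤ S.card := by
  unfold arcs
  refine card_le_card fun e he => ?_
  exact h e.1 e.2 (mem_filter.1 he).2

lemma bits_le (N : ℕ) : N * N + 2 ≤ (N + 2) ^ 2 := by nlinarith [Nat.zero_le N]

theorem easy_iff (c : ℝ) (t W : ℕ → ℕ) (hW : ∀ N, 1 ≤ W N ∧ W N ≤ 2 ^ t N) :
    EasyOn c t W ↔ Easy c := by
  constructor
  · rintro ⟨k, h⟩
    refine ⟨21 + 14 * 2 + k + 1, fun N => ?_⟩
    choose D o d0 d1 d2 d3 using h N
    have hb := bits_le N
    obtain ⟨C', o', q1, q2, q3⟩ := mux_multi (n := N * N) (m := N)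
      (Nat.log 2 (N * N) + 1) ((N + 2) ^ k)
      (Nat.lt_pow_succ_log_self (by norm_num) _) D d2 o (fun a i j => d0 a i j)
    refine ⟨C', o', q2, ?_, fun G => ?_⟩
    · refine le_trans q1 (le_trans ?_ (absorb 21 2 k N (N * N + 2) ((N + 2) ^ k) hb le_rfl))
      unfold msz
      have e1 := pow_two_log (N * N)
      have e2 := tde_le' (N * N)
      have e0 : N + 1 ≤ N * N + 2 := by nlinarith [Nat.zero_le N]
      obtain ⟨B, hB⟩ : ∃ B, B = N * N + 2 := ⟨_, rfl⟩
      rw [← hB] at e0 e1 e2 ⊢
      obtain ⟨R, hR⟩ : ∃ R, R = 2 ^ (Nat.log 2 (N * N) + 1) := ⟨_, rfl⟩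
      rw [← hR] at e1 ⊢
      obtain ⟨s, hs⟩ : ∃ s, s = (N + 2) ^ k := ⟨_, rfl⟩
      rw [← hs]
      have hB1 : 1 ≤ B := by omega
      have e3 : B ≤ B ^ 14 := by
        calc B = B ^ 1 := (pow_one B).symm
          _ ≤ B ^ 14 := Nat.pow_le_pow_right hB1 (by norm_num)
      have e4 : B ^ 13 ≤ B ^ 14 := Nat.pow_le_pow_right hB1 (by norm_num)
      have e7 : B ^ 2 ≤ B ^ 14 := Nat.pow_le_pow_right hB1 (by norm_num)
      calc R * s + R * 2 ^ tde (N * N) + 6 * R * (N + 1)
          ≤ (2 * B) * s + (2 * B) * (2 ^ 18 * B ^ 12) + 6 * (2 * B) * B := by gcongr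
        _ = 2 * (B * s) + 2 ^ 19 * B ^ 13 + 12 * B ^ 2 := by ring
        _ ≤ 2 * (B ^ 14 * s) + 2 ^ 19 * B ^ 14 + 12 * B ^ 14 := by gcongr
        _ ≤ 2 ^ 21 * B ^ 14 * (s + 1) := by
            have e5 : 2 ^ 21 * B ^ 14 * (s + 1) = 2 ^ 21 * (B ^ 14 * s) + 2 ^ 21 * B ^ 14 := by
              ring
            rw [e5]
            have e6 : 0 ≤ B ^ 14 * s := Nat.zero_le _
            omega
    · have h5 := d3 (arcs G) G le_rfl (by have := (hW N).1; omega)
      have h6 : printed C' o' G = printed (D (arcs G)) (o (arcs G)) G := by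
        unfold printed
        apply filter_congr
        intro v _
        rw [q3 (code G) v, wt_code]
      unfold Right
      rw [h6]
      exact h5
  · rintro ⟨k, h⟩
    refine ⟨21 + 14 * 2 + k + 1, fun N a => ?_⟩
    obtain ⟨D, o, d0, d1, d2⟩ := h N
    have hb := bits_le N
    obtain ⟨C', q1, q2, q3⟩ := window_multi D a (min (t N) (Nat.log 2 (N * N) + 1))
    choose o' r1 r2 using fun i : Fin N => q3 (o i) (d0 i)
    refine ⟨C', o', r1, q1.trans (min_le_left _ _), ?_, fun G h1 h2 => ?_⟩
    · refine le_trans q2 (le_trans ?_ (absorb 21 2 k N (N * N + 2) D.size hb d1))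
      unfold isz
      have e1 := pow_two_log (N * N)
      have e2 := tde_le' (N * N)
      obtain ⟨B, hB⟩ : ∃ B, B = N * N + 2 := ⟨_, rfl⟩
      rw [← hB] at e1 e2 ⊢
      obtain ⟨R, hR⟩ : ∃ R, R = 2 ^ (min (t N) (Nat.log 2 (N * N) + 1)) := ⟨_, rfl⟩
      have e3 : R ≤ 2 * B := by
        rw [hR]
        exact (Nat.pow_le_pow_right (by norm_num) (min_le_right _ _)).trans e1
      rw [← hR]
      have hB1 : 1 ≤ B := by omega
      have hM : N * N + 1 ≤ B := by omega
      have e4 : B ^ 2 ≤ B ^ 14 := Nat.pow_le_pow_right hB1 (by norm_num)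
      have e8 : R * 2 ^ tde (N * N) ≤ (2 * B) * (2 ^ 18 * B ^ 12) := Nat.mul_le_mul e3 e2
      calc N * N * (R * 2 ^ tde (N * N)) + R * 2 ^ tde (N * N) +
            6 * R * (N * N + 1) + 2 * D.size
          = (N * N + 1) * (R * 2 ^ tde (N * N)) + 6 * R * (N * N + 1) + 2 * D.size := by
            ring
        _ ≤ B * ((2 * B) * (2 ^ 18 * B ^ 12)) + 6 * (2 * B) * B + 2 * D.size := by gcongr
        _ = 2 ^ 19 * B ^ 14 + 12 * B ^ 2 + 2 * D.size := by ring
        _ ≤ 2 ^ 21 * B ^ 14 * (D.size + 1) := by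
            have e5 : 2 ^ 21 * B ^ 14 * (D.size + 1) =
                2 ^ 21 * (B ^ 14 * D.size) + 2 ^ 21 * B ^ 14 := by ring
            have e6 : D.size ≤ B ^ 14 * D.size :=
              Nat.le_mul_of_pos_left _ (Nat.pow_pos hB1)
            rw [e5]
            omega
    · have h5 := d2 G
      have h6 : printed C' o' G = printed D o G := by
        unfold printed
        apply filter_congr
        intro v _
        rw [r2 v (code G) (by rw [wt_code]; exact h1) ?_]
        rcases le_total (t N) (Nat.log 2 (N * N) + 1) with h8 | h8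
        · rw [min_eq_left h8, wt_code]
          have := (hW N).2
          omega
        · rw [min_eq_right h8]
          have h9 : N * N < 2 ^ (Nat.log 2 (N * N) + 1) :=
            Nat.lt_pow_succ_log_self (by norm_num) _
          have := wt_le (code G)
          omega
      unfold Right
      rw [h6]
      exact h5

end Pool.Agent.W953.VC
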